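import Pool.Agent.Lib_helper51.Lang.A

open Complex Metric Function MeromorphicOn ValueDistribution

namespace LangFC

/-! ### pigeonhole for radii -/

lemma b_exists_far (s : Finset ℂ) (r₀ η : ℝ) (hη : 0 < η) :
    ∃ r : ℝ, r₀ ≤ r ∧ r ≤ r₀ + η ∧ ∀ w ∈ s, η / (2 * ((s.card : ℝ) + 1)) ≤ |r - ‖w‖| := by
  classical
  by_contra hcon
  push Not at hcon
  set n := s.card with hn
  have hn0 : (0 : ℝ) < (n : ℝ) + 1 := by positivity
  let m : Fin (n + 1) → ℝ := fun k => r₀ + ((k : ℝ) + 1 / 2) * (η / ((n : ℝ) + 1))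
  have hd : 0 < η / ((n : ℝ) + 1) := div_pos hη hn0
  have hm1 : ∀ k, r₀ ≤ m k := by
    intro k
    have : 0 ≤ ((k : ℝ) + 1 / 2) * (η / ((n : ℝ) + 1)) := by positivity
    simp only [m]
    linarith
  have hm2 : ∀ k, m k ≤ r₀ + η := by
    intro k
    have hk : ((k : ℕ) : ℝ) ≤ n := by
      have := k.2
      exact_mod_cast Nat.lt_succ_iff.mp this
    have h1 : ((k : ℝ) + 1 / 2) * (η / ((n : ℝ) + 1)) ≤ ((n : ℝ) + 1) * (η / ((n : ℝ) + 1)) := by
      apply mul_le_mul_of_nonneg_right _ hd.le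
      linarith
    rw [mul_div_cancel₀ _ hn0.ne'] at h1
    simp only [m]
    linarith
  choose w hw1 hw2 using fun k : Fin (n + 1) => hcon (m k) (hm1 k) (hm2 k)
  obtain ⟨k, _, k', _, hne, heq⟩ := Finset.exists_ne_map_eq_of_card_lt_of_maps_to
    (s := (Finset.univ : Finset (Fin (n + 1)))) (t := s) (f := w)
    (by rw [Finset.card_univ, Fintype.card_fin]; omega)
    (fun k _ => hw1 k)
  have h1 := hw2 k
  have h2 := hw2 k'
  rw [← heq] at h2
  have h3 : |m k - m k'| < η / ((n : ℝ) + 1) := by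
    have h4 : |m k - m k'| ≤ |m k - ‖w k‖| + |m k' - ‖w k‖| := by
      rw [abs_sub_comm (m k') ‖w k‖]
      exact abs_sub_le _ _ _
    have h5 : η / (2 * ((n : ℝ) + 1)) + η / (2 * ((n : ℝ) + 1)) = η / ((n : ℝ) + 1) := by
      field_simp
      ring
    linarith
  have h6 : m k - m k' = ((k : ℝ) - (k' : ℝ)) * (η / ((n : ℝ) + 1)) := by
    simp only [m]
    ring
  rw [h6, abs_mul, abs_of_pos hd] at h3
  have h7 : (1 : ℝ) ≤ |((k : ℕ) : ℝ) - ((k' : ℕ) : ℝ)| := by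
    have hne' : ((k : ℕ) : ℤ) - ((k' : ℕ) : ℤ) ≠ 0 := by
      intro h
      apply hne
      apply Fin.ext
      omega
    have := Int.one_le_abs hne'
    have h8 : ((1 : ℤ) : ℝ) ≤ ((|((k : ℕ) : ℤ) - ((k' : ℕ) : ℤ)| : ℤ) : ℝ) := by exact_mod_cast this
    rw [Int.cast_abs] at h8
    push_cast at h8
    exact h8
  have h9 : 1 * (η / ((n : ℝ) + 1)) ≤ |((k : ℕ) : ℝ) - ((k' : ℕ) : ℝ)| * (η / ((n : ℝ) + 1)) :=
    mul_le_mul_of_nonneg_right h7 hd.le
  linarith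

/-! ### Nevanlinna functions -/

lemma b_abs_log (x : ℝ) : |Real.log x| = Real.posLog x + Real.posLog x⁻¹ := by
  unfold Real.posLog
  rw [Real.log_inv]
  rcases le_total 0 (Real.log x) with h | h
  · rw [abs_of_nonneg h, max_eq_right h, max_eq_left (by linarith)]
    ring
  · rw [abs_of_nonpos h, max_eq_left h, max_eq_right (by linarith)]
    ring

lemma b_circleAverage {f : ℂ → ℂ} (hf : Meromorphic f) (R : ℝ) :
    Real.circleAverage (fun w => |Real.log ‖f w‖|) 0 R =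
      proximity f ⊤ R + proximity f⁻¹ ⊤ R := by
  rw [proximity_top, proximity_top]
  rw [← Real.circleAverage_add]
  · congr 1
    funext w
    simp only [Pi.add_apply, Pi.inv_apply, norm_inv]
    exact b_abs_log _
  · exact hf.meromorphicOn.circleIntegrable_posLog_norm
  · exact hf.inv.meromorphicOn.circleIntegrable_posLog_norm

lemma b_fmt {f : ℂ → ℂ} (hf : Meromorphic f) : ∃ C : ℝ, 0 ≤ C ∧ ∀ R : ℝ,
    characteristic f⁻¹ ⊤ R ≤ characteristic f ⊤ R + C := by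
  refine ⟨max |Real.log ‖f 0‖| |Real.log ‖meromorphicTrailingCoeffAt f 0‖|,
    le_max_of_le_left (abs_nonneg _), ?_⟩
  intro R
  have := characteristic_sub_characteristic_inv_le hf (R := R)
  rw [abs_le] at this
  linarith [this.1]

lemma b_prox_le {f : ℂ → ℂ} {R : ℝ} (hR : 1 ≤ R) :
    proximity f ⊤ R ≤ characteristic f ⊤ R := by
  have h : 0 ≤ ValueDistribution.logCounting f ⊤ R := logCounting_nonneg hR
  have h2 : characteristic f ⊤ R = proximity f ⊤ R + ValueDistribution.logCounting f ⊤ R := rfl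
  linarith

lemma b_logCounting_le {f : ℂ → ℂ} {R : ℝ} :
    ValueDistribution.logCounting f ⊤ R ≤ characteristic f ⊤ R := by
  have h : 0 ≤ proximity f ⊤ R := proximity_nonneg R
  have h2 : characteristic f ⊤ R = proximity f ⊤ R + ValueDistribution.logCounting f ⊤ R := rfl
  linarith

/-- bound for `K(R)` -/
lemma b_K {f : ℂ → ℂ} (hf : Meromorphic f) : ∃ C : ℝ, 0 ≤ C ∧ ∀ R R' : ℝ, 1 ≤ R → R ≤ R' →
    Real.circleAverage (fun w => |Real.log ‖f w‖|) 0 R ≤ 2 * characteristic f ⊤ R' + C := by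
  obtain ⟨C, hC, h⟩ := b_fmt hf
  refine ⟨C, hC, ?_⟩
  intro R R' hR hRR'
  rw [b_circleAverage hf]
  have h1 := b_prox_le (f := f) hR
  have h2 := b_prox_le (f := f⁻¹) hR
  have h3 := h R
  have h4 := characteristic_monotoneOn hf (Set.mem_Ioi.mpr (by linarith : (0 : ℝ) < R))
    (Set.mem_Ioi.mpr (by linarith : (0 : ℝ) < R')) hRR'
  linarith

/-- total multiplicity of zeros and poles -/
lemma b_count (D : locallyFinsuppWithin (Set.univ : Set ℂ) ℤ) {R R' : ℝ} (hR : 1 ≤ R)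
    (hRR' : R < R') (s : Finset ℂ) (hs : ∀ w ∈ s, ‖w‖ < R) (hD : 0 ≤ D) :
    (∑ w ∈ s, (D w : ℝ)) * ((R' - R) / R') ≤ locallyFinsuppWithin.logCounting D R' := by
  classical
  let D1 : locallyFinsuppWithin (Set.univ : Set ℂ) ℤ :=
    ∑ w ∈ s, locallyFinsuppWithin.single w (D w)
  have hD1 : D1 ≤ D := by
    intro z
    simp only [D1, locallyFinsuppWithin.coe_sum, Finset.sum_apply]
    simp only [locallyFinsuppWithin.single_apply]
    by_cases hz : z ∈ s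
    · rw [Finset.sum_eq_single z]
      · simp
      · intro b _ hb
        simp [Ne.symm hb]
      · intro h
        exact absurd hz h
    · rw [Finset.sum_eq_zero]
      · exact hD z
      · intro b hb
        have : b ≠ z := fun h => hz (h ▸ hb)
        simp [Ne.symm this]
  have h1 := locallyFinsuppWithin.logCounting_le hD1 (by linarith : (1 : ℝ) ≤ R')
  refine le_trans ?_ h1
  have h2 : locallyFinsuppWithin.logCounting D1 R' =
      ∑ w ∈ s, (D w : ℝ) * (Real.log R' - Real.log ‖w‖) := by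
    simp only [D1, map_sum, Finset.sum_apply]
    apply Finset.sum_congr rfl
    intro w hw
    exact locallyFinsuppWithin.logCounting_single_eq_log_sub_const (by linarith [hs w hw])
  rw [h2, Finset.sum_mul]
  apply Finset.sum_le_sum
  intro w hw
  have hDw : (0 : ℝ) ≤ (D w : ℝ) := by exact_mod_cast hD w
  apply mul_le_mul_of_nonneg_left _ hDw
  have h3 : Real.log ‖w‖ ≤ Real.log R := by
    by_cases hw0 : w = 0
    · rw [hw0, norm_zero, Real.log_zero]
      exact Real.log_nonneg hR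
    · exact Real.log_le_log (norm_pos_iff.mpr hw0) (hs w hw).le
  have hR'0 : 0 < R' := by linarith
  have hR0 : 0 < R := by linarith
  have h4 : 1 - (R' / R)⁻¹ ≤ Real.log (R' / R) := Real.one_sub_inv_le_log_of_pos (by positivity)
  rw [Real.log_div hR'0.ne' hR0.ne'] at h4
  have h5 : (R' - R) / R' = 1 - (R' / R)⁻¹ := by
    field_simp
  linarith

lemma b_N {f : ℂ → ℂ} (hf : Meromorphic f) : ∃ C : ℝ, 0 ≤ C ∧ ∀ (R R' : ℝ), 1 ≤ R → R < R' →
    ∀ s : Finset ℂ, (∀ w ∈ s, ‖w‖ < R) →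
      (∑ w ∈ s, (|dv f w| : ℝ)) * ((R' - R) / R') ≤ 2 * characteristic f ⊤ R' + C := by
  obtain ⟨C, hC, h⟩ := b_fmt hf
  refine ⟨C, hC, ?_⟩
  intro R R' hR hRR' s hs
  have h1 := b_count (dv f)⁺ hR hRR' s hs (posPart_nonneg _)
  have h2 := b_count (dv f)⁻ hR hRR' s hs (negPart_nonneg _)
  have h3 : ∀ w, (|dv f w| : ℝ) = (((dv f)⁺ w : ℤ) : ℝ) + (((dv f)⁻ w : ℤ) : ℝ) := by
    intro w
    rw [locallyFinsuppWithin.posPart_apply, locallyFinsuppWithin.negPart_apply]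
    have := posPart_add_negPart (dv f w)
    rw [← Int.cast_add, this, Int.cast_abs]
  rw [Finset.sum_congr rfl (fun w _ => h3 w), Finset.sum_add_distrib, add_mul]
  have h4 : locallyFinsuppWithin.logCounting (dv f)⁻ R' ≤ characteristic f ⊤ R' := by
    have := b_logCounting_le (f := f) (R := R')
    rwa [ValueDistribution.logCounting_top] at this
  have h5 : locallyFinsuppWithin.logCounting (dv f)⁺ R' ≤ characteristic f⁻¹ ⊤ R' := by
    have := b_logCounting_le (f := f⁻¹) (R := R')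
    rw [ValueDistribution.logCounting_top, divisor_inv, negPart_neg] at this
    exact this
  have h6 := h R'
  linarith

/-! ### regularity at good points -/

lemma b_good {f : ℂ → ℂ} (hf : Nice f) {z : ℂ} (hz : dv f z = 0) :
    AnalyticAt ℂ f z ∧ f z ≠ 0 := by
  have h0 : meromorphicOrderAt f z = 0 := by
    have h1 : (meromorphicOrderAt f z).untop₀ = 0 := by
      rw [← MeromorphicOn.divisor_apply hf.meromorphic.meromorphicOn (Set.mem_univ z)]
      exact hz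
    rcases WithTop.untop₀_eq_zero.mp h1 with h | h
    · exact h
    · exact absurd h (hf.ord z)
  refine ⟨?_, ?_⟩
  · rw [← (hf.nf z).meromorphicOrderAt_nonneg_iff_analyticAt, h0]
  · rwa [← (hf.nf z).meromorphicOrderAt_eq_zero_iff]

lemma b_finite {f : ℂ → ℂ} (hf : Meromorphic f) (R : ℝ) :
    {w : ℂ | ‖w‖ ≤ R ∧ dv f w ≠ 0}.Finite := by
  have h1 : (divisor f (closedBall (0 : ℂ) R)).support.Finite :=
    (divisor f (closedBall (0 : ℂ) R)).finiteSupport (isCompact_closedBall 0 R)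
  refine h1.subset ?_
  intro w ⟨hw1, hw2⟩
  have hmem : w ∈ closedBall (0 : ℂ) R := by simpa using hw1
  rw [mem_support, MeromorphicOn.divisor_apply hf.meromorphicOn hmem]
  rwa [dv, MeromorphicOn.divisor_apply hf.meromorphicOn (Set.mem_univ w)] at hw2

/-! ### Cauchy estimates from a bound of the logarithmic derivative -/

lemma b_cauchy {f : ℂ → ℂ} {z : ℂ} {M ρ : ℝ} (hM : 0 < M) (hρ : ρ = 1 / (2 * M))
    (hf : ∀ ζ ∈ closedBall z ρ, AnalyticAt ℂ f ζ ∧ f ζ ≠ 0)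
    (hb : ∀ ζ ∈ closedBall z ρ, ‖deriv f ζ / f ζ‖ ≤ M) (l : ℕ) :
    ‖iteratedDeriv l f z‖ ≤ (l.factorial : ℝ) * 2 * (2 * M) ^ l * ‖f z‖ := by
  have hρ0 : 0 < ρ := by rw [hρ]; positivity
  have hcont : ContinuousOn f (closedBall z ρ) := fun ζ hζ =>
    (hf ζ hζ).1.continuousAt.continuousWithinAt
  obtain ⟨ζ₀, hζ₀, hmax⟩ := (isCompact_closedBall z ρ).exists_isMaxOn
    ⟨z, mem_closedBall_self hρ0.le⟩ hcont.norm
  have hmax' : ∀ ζ ∈ closedBall z ρ, ‖f ζ‖ ≤ ‖f ζ₀‖ := fun ζ hζ => hmax hζ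
  have hder : ∀ ζ ∈ closedBall z ρ, ‖deriv f ζ‖ ≤ M * ‖f ζ₀‖ := by
    intro ζ hζ
    have h1 := hb ζ hζ
    rw [norm_div, div_le_iff₀ (norm_pos_iff.mpr (hf ζ hζ).2)] at h1
    exact h1.trans (mul_le_mul_of_nonneg_left (hmax' ζ hζ) hM.le)
  have hlip : ‖f ζ₀ - f z‖ ≤ M * ‖f ζ₀‖ * ‖ζ₀ - z‖ :=
    Convex.norm_image_sub_le_of_norm_deriv_le
      (fun ζ hζ => (hf ζ hζ).1.differentiableAt) hder (convex_closedBall z ρ)
      (mem_closedBall_self hρ0.le) hζ₀
  have hdist : ‖ζ₀ - z‖ ≤ ρ := by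
    rw [← dist_eq_norm]
    exact hζ₀
  have h2 : ‖f ζ₀‖ ≤ 2 * ‖f z‖ := by
    have h3 : ‖f ζ₀‖ ≤ ‖f ζ₀ - f z‖ + ‖f z‖ := by
      calc ‖f ζ₀‖ = ‖(f ζ₀ - f z) + f z‖ := by rw [sub_add_cancel]
        _ ≤ _ := norm_add_le _ _
    have h4 : M * ‖f ζ₀‖ * ‖ζ₀ - z‖ ≤ ‖f ζ₀‖ / 2 := by
      calc M * ‖f ζ₀‖ * ‖ζ₀ - z‖ ≤ M * ‖f ζ₀‖ * ρ :=
            mul_le_mul_of_nonneg_left hdist (by positivity)
        _ = ‖f ζ₀‖ / 2 := by
            rw [hρ]
            field_simp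
    linarith
  have hdiff : DiffContOnCl ℂ f (ball z ρ) := by
    constructor
    · intro ζ hζ
      exact (hf ζ (ball_subset_closedBall hζ)).1.differentiableAt.differentiableWithinAt
    · exact hcont.mono closure_ball_subset_closedBall
  have h5 := Complex.norm_iteratedDeriv_le_of_forall_mem_sphere_norm_le l hρ0 hdiff
    (C := 2 * ‖f z‖) (fun ζ hζ => (hmax' ζ (sphere_subset_closedBall hζ)).trans h2)
  refine h5.trans (le_of_eq ?_)
  rw [hρ, one_div, inv_pow, div_inv_eq_mul]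
  ring


/-! ### the main estimate -/

/-- the estimate at one good radius for one function -/
lemma b_main {f : ℂ → ℂ} (hf : Nice f) {r₀ η R r A X : ℝ} {n : ℕ} (hη : 0 < η)
    (hηr : η ≤ r₀) (hR1 : r₀ + 2 * η < R) (hR2 : R < r₀ + 3 * η)
    (hr2 : r ≤ r₀ + η) (hRS : ∀ w, ‖w‖ = R → dv f w = 0) (s : Finset ℂ)
    (hs : ∀ w, ‖w‖ < R → dv f w ≠ 0 → w ∈ s) (hs' : ∀ w ∈ s, ‖w‖ < R)
    (hfar : ∀ w ∈ s, η / (2 * ((n : ℝ) + 1)) ≤ |r - ‖w‖|)
    (hX : Real.circleAverage (fun w => |Real.log ‖f w‖|) 0 R ≤ X)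
    (hN : ∑ w ∈ s, (|dv f w| : ℝ) ≤ A) (hnA : (n : ℝ) + 1 ≤ A) (hXA : (r₀ / η) * X ≤ A)
    (l : ℕ) {z : ℂ} (hz : ‖z‖ = r) :
    dv f z = 0 ∧
    ‖iteratedDeriv l f z / f z‖ ≤ (l.factorial : ℝ) * 2 * (2 * (1030 * A ^ 2 / η)) ^ l := by
  have hn1 : (1 : ℝ) ≤ (n : ℝ) + 1 := by
    have : (0 : ℝ) ≤ n := Nat.cast_nonneg n
    linarith
  have hA1 : 1 ≤ A := hn1.trans hnA
  have hA2 : A ≤ A ^ 2 := by nlinarith
  set ε : ℝ := η / (2 * ((n : ℝ) + 1)) with hε
  have hε0 : 0 < ε := by positivity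
  have hεη : ε ≤ η / 2 := by
    rw [hε]
    apply div_le_div_of_nonneg_left hη.le (by norm_num)
    linarith
  have hzw : ∀ w ∈ s, ε ≤ ‖z - w‖ := by
    intro w hw
    have h1 := hfar w hw
    have h2 : |r - ‖w‖| ≤ ‖z - w‖ := by
      rw [← hz]
      exact abs_norm_sub_norm_le z w
    linarith
  have hgood : ∀ ζ, ‖ζ - z‖ ≤ ε / 2 → ‖ζ‖ ≤ r₀ + 5 / 4 * η ∧ dv f ζ = 0 := by
    intro ζ hζ
    have h1 : ‖ζ‖ ≤ ‖ζ - z‖ + ‖z‖ := by
      calc ‖ζ‖ = ‖(ζ - z) + z‖ := by rw [sub_add_cancel]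
        _ ≤ _ := norm_add_le _ _
    have h2 : ‖ζ‖ ≤ r₀ + 5 / 4 * η := by linarith
    refine ⟨h2, ?_⟩
    by_contra hne
    have h3 : ζ ∈ s := hs ζ (by linarith) hne
    have h4 := hzw ζ h3
    rw [norm_sub_rev] at h4
    linarith
  have hM : ∀ ζ, ‖ζ - z‖ ≤ ε / 2 → ‖deriv f ζ / f ζ‖ ≤ 1030 * A ^ 2 / η := by
    intro ζ hζ
    obtain ⟨h1, h2⟩ := hgood ζ hζ
    have hRζ : η / 2 ≤ R - ‖ζ‖ := by linarith
    have h3 := logDeriv_bound_proof hf (by linarith : (0 : ℝ) < R) hRS s hs hs'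
      (by linarith : ‖ζ‖ < R) h2
    refine h3.trans ?_
    have hX0 : 0 ≤ Real.circleAverage (fun w => |Real.log ‖f w‖|) 0 R :=
      Real.circleAverage_nonneg_of_nonneg (fun _ _ => abs_nonneg _)
    have hR4 : R ≤ 4 * r₀ := by linarith
    have hr0 : 0 < r₀ := by linarith
    have h4 : 64 * R / (R - ‖ζ‖) ^ 2 ≤ 1024 * r₀ / η ^ 2 := by
      have h5 : 64 * R ≤ 256 * r₀ := by linarith
      have h6 : (η / 2) ^ 2 ≤ (R - ‖ζ‖) ^ 2 := pow_le_pow_left₀ (by positivity) hRζ 2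
      calc 64 * R / (R - ‖ζ‖) ^ 2 ≤ 256 * r₀ / (η / 2) ^ 2 :=
            div_le_div₀ (by positivity) h5 (by positivity) h6
        _ = 1024 * r₀ / η ^ 2 := by field_simp; ring
    have h7 : 64 * R / (R - ‖ζ‖) ^ 2 * Real.circleAverage (fun w => |Real.log ‖f w‖|) 0 R ≤
        1024 * A ^ 2 / η := by
      calc 64 * R / (R - ‖ζ‖) ^ 2 * Real.circleAverage (fun w => |Real.log ‖f w‖|) 0 R
          ≤ 1024 * r₀ / η ^ 2 * X := mul_le_mul h4 hX hX0 (by positivity)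
        _ = 1024 * ((r₀ / η) * X) / η := by field_simp
        _ ≤ 1024 * A ^ 2 / η := by
            apply div_le_div_of_nonneg_right _ hη.le
            linarith
    have h8 : ∑ w ∈ s, (|dv f w| : ℝ) * (1 / ‖ζ - w‖ + 1 / (R - ‖ζ‖)) ≤ 6 * A ^ 2 / η := by
      have h9 : ∀ w ∈ s, (|dv f w| : ℝ) * (1 / ‖ζ - w‖ + 1 / (R - ‖ζ‖)) ≤
          (|dv f w| : ℝ) * (6 * A / η) := by
        intro w hw
        apply mul_le_mul_of_nonneg_left _ (abs_nonneg _)
        have h10 : ε / 2 ≤ ‖ζ - w‖ := by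
          have h11 := hzw w hw
          have h12 : ‖z - w‖ ≤ ‖ζ - z‖ + ‖ζ - w‖ := by
            rw [norm_sub_rev ζ z]
            calc ‖z - w‖ = ‖(z - ζ) + (ζ - w)‖ := by rw [sub_add_sub_cancel]
              _ ≤ _ := norm_add_le _ _
          linarith
        have h13 : 1 / ‖ζ - w‖ ≤ 4 * A / η := by
          calc 1 / ‖ζ - w‖ ≤ 1 / (ε / 2) := one_div_le_one_div_of_le (by positivity) h10
            _ = 4 * ((n : ℝ) + 1) / η := by
                rw [hε]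
                field_simp
                ring
            _ ≤ 4 * A / η := by
                apply div_le_div_of_nonneg_right _ hη.le
                linarith
        have h14 : 1 / (R - ‖ζ‖) ≤ 2 * A / η := by
          calc 1 / (R - ‖ζ‖) ≤ 1 / (η / 2) := one_div_le_one_div_of_le (by positivity) hRζ
            _ = 2 * 1 / η := by field_simp
            _ ≤ 2 * A / η := by
                apply div_le_div_of_nonneg_right _ hη.le
                linarith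
        calc 1 / ‖ζ - w‖ + 1 / (R - ‖ζ‖) ≤ 4 * A / η + 2 * A / η := add_le_add h13 h14
          _ = 6 * A / η := by ring
      calc ∑ w ∈ s, (|dv f w| : ℝ) * (1 / ‖ζ - w‖ + 1 / (R - ‖ζ‖))
          ≤ ∑ w ∈ s, (|dv f w| : ℝ) * (6 * A / η) := Finset.sum_le_sum h9
        _ = (∑ w ∈ s, (|dv f w| : ℝ)) * (6 * A / η) := by rw [Finset.sum_mul]
        _ ≤ A * (6 * A / η) := mul_le_mul_of_nonneg_right hN (by positivity)
        _ = 6 * A ^ 2 / η := by ring
    calc _ ≤ 1024 * A ^ 2 / η + 6 * A ^ 2 / η := add_le_add h7 h8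
      _ = 1030 * A ^ 2 / η := by ring
  set M : ℝ := 1030 * A ^ 2 / η with hMdef
  have hM0 : 0 < M := by positivity
  have hρ : 1 / (2 * M) ≤ ε / 2 := by
    have h1 : 2 / ε ≤ M := by
      have h2 : 2 / ε = 4 * ((n : ℝ) + 1) / η := by
        rw [hε]
        field_simp
        ring
      rw [h2, hMdef]
      apply div_le_div_of_nonneg_right _ hη.le
      nlinarith
    rw [div_le_iff₀ hε0] at h1
    rw [div_le_iff₀ (by positivity)]
    nlinarith
  have hmem : ∀ ζ ∈ closedBall z (1 / (2 * M)), ‖ζ - z‖ ≤ ε / 2 := by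
    intro ζ hζ
    rw [mem_closedBall, dist_eq_norm] at hζ
    exact hζ.trans hρ
  have hz0 : dv f z = 0 := (hgood z (by rw [sub_self, norm_zero]; positivity)).2
  refine ⟨hz0, ?_⟩
  have hfz : f z ≠ 0 := (b_good hf hz0).2
  have h := b_cauchy hM0 rfl (fun ζ hζ => b_good hf (hgood ζ (hmem ζ hζ)).2)
    (fun ζ hζ => hM ζ (hmem ζ hζ)) l
  rw [norm_div, div_le_iff₀ (norm_pos_iff.mpr hfz)]
  exact h

theorem exists_good_radius_proof {q : ℕ} (f : Fin q → ℂ → ℂ) (hf : ∀ j, Nice (f j)) (L : ℕ) :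
    ∃ C : ℝ, 1 ≤ C ∧ ∀ r₀ η : ℝ, 1 ≤ r₀ → 0 < η → η ≤ r₀ →
      ∃ r : ℝ, r₀ ≤ r ∧ r ≤ r₀ + η ∧ (∀ j w, ‖w‖ = r → dv (f j) w = 0) ∧
        ∀ j, ∀ l ≤ L, ∀ z : ℂ, ‖z‖ = r →
          ‖iteratedDeriv l (f j) z / f j z‖ ≤
            (C * (1 + ∑ i, characteristic (f i) ⊤ (r₀ + 4 * η)) ^ 2 * (r₀ / η) ^ 2 / η) ^ l := by
  classical
  choose C1 hC1 hK using fun j => b_K (hf j).meromorphic
  choose C2 hC2 hN using fun j => b_N (hf j).meromorphic
  set C0 : ℝ := ∑ j, C1 j + ∑ j, C2 j with hC0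
  have hC0' : 0 ≤ C0 := add_nonneg (Finset.sum_nonneg fun j _ => hC1 j)
    (Finset.sum_nonneg fun j _ => hC2 j)
  refine ⟨(L.factorial : ℝ) * 4 * 1030 * (11 + 5 * C0) ^ 2, ?_, ?_⟩
  · have h1 : (1 : ℝ) ≤ (L.factorial : ℝ) := by exact_mod_cast Nat.factorial_pos L
    have h2 : (1 : ℝ) ≤ (11 + 5 * C0) ^ 2 := one_le_pow₀ (by linarith)
    nlinarith
  intro r₀ η hr0 hη hηr
  set R' : ℝ := r₀ + 4 * η with hR'
  set Φ : ℝ := ∑ i, characteristic (f i) ⊤ R' with hΦ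
  have hT : ∀ j, 0 ≤ characteristic (f j) ⊤ R' := fun j => characteristic_nonneg (by linarith)
  have hΦ0 : 0 ≤ Φ := Finset.sum_nonneg fun j _ => hT j
  -- generic `R`
  have hfin : (⋃ j, (fun w : ℂ => ‖w‖) '' {w : ℂ | ‖w‖ ≤ R' ∧ dv (f j) w ≠ 0}).Finite :=
    Set.finite_iUnion fun j => (b_finite (hf j).meromorphic R').image _
  obtain ⟨R, ⟨hR1, hR2⟩, hR3⟩ := (Set.Ioo_infinite
    (by linarith : r₀ + 2 * η < r₀ + 3 * η)).exists_notMem_finite hfin
  have hRS : ∀ j w, ‖w‖ = R → dv (f j) w = 0 := by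
    intro j w hw
    by_contra hne
    exact hR3 (Set.mem_iUnion.mpr ⟨j, w, ⟨by linarith, hne⟩, hw⟩)
  -- the finite sets of zeros and poles
  let s : Fin q → Finset ℂ := fun j =>
    ((b_finite (hf j).meromorphic R').toFinset).filter (fun w => ‖w‖ < R)
  have hs1 : ∀ j w, w ∈ s j ↔ ‖w‖ < R ∧ dv (f j) w ≠ 0 := by
    intro j w
    simp only [s, Finset.mem_filter, Set.Finite.mem_toFinset, Set.mem_ofPred_eq]
    constructor
    · rintro ⟨⟨_, h1⟩, h2⟩
      exact ⟨h2, h1⟩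
    · rintro ⟨h1, h2⟩
      exact ⟨⟨by linarith, h2⟩, h1⟩
  let S : Finset ℂ := Finset.univ.biUnion s
  set X : ℝ := 2 * Φ + C0 with hX
  have hX0 : 0 ≤ X := by positivity
  have hRR' : R < R' := by linarith
  have hfrac : η / (5 * r₀) ≤ (R' - R) / R' := by
    rw [div_le_div_iff₀ (by positivity) (by linarith)]
    nlinarith
  have hfrac0 : 0 < η / (5 * r₀) := by positivity
  -- total multiplicities
  have hNj : ∀ j, (∑ w ∈ s j, (|dv (f j) w| : ℝ)) * (η / (5 * r₀)) ≤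
      2 * characteristic (f j) ⊤ R' + C2 j := by
    intro j
    have h1 := hN j R R' (by linarith) hRR' (s j) (fun w hw => ((hs1 j w).mp hw).1)
    refine le_trans ?_ h1
    exact mul_le_mul_of_nonneg_left hfrac (Finset.sum_nonneg fun w _ => abs_nonneg _)
  have hNsum : (∑ j, ∑ w ∈ s j, (|dv (f j) w| : ℝ)) * (η / (5 * r₀)) ≤ X := by
    rw [Finset.sum_mul]
    calc ∑ j, (∑ w ∈ s j, (|dv (f j) w| : ℝ)) * (η / (5 * r₀))
        ≤ ∑ j, (2 * characteristic (f j) ⊤ R' + C2 j) := Finset.sum_le_sum fun j _ => hNj j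
      _ = 2 * Φ + ∑ j, C2 j := by rw [Finset.sum_add_distrib, ← Finset.mul_sum]
      _ ≤ X := by
          rw [hX, hC0]
          have : 0 ≤ ∑ j, C1 j := Finset.sum_nonneg fun j _ => hC1 j
          linarith
  have hNtot : ∑ j, ∑ w ∈ s j, (|dv (f j) w| : ℝ) ≤ (5 * r₀ / η) * X := by
    have h1 : (5 * r₀ / η) * (η / (5 * r₀)) = 1 := by
      field_simp
    calc ∑ j, ∑ w ∈ s j, (|dv (f j) w| : ℝ)
        = (5 * r₀ / η) * ((∑ j, ∑ w ∈ s j, (|dv (f j) w| : ℝ)) * (η / (5 * r₀))) := by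
          rw [mul_comm (∑ j, ∑ w ∈ s j, (|dv (f j) w| : ℝ)), ← mul_assoc, h1, one_mul]
      _ ≤ (5 * r₀ / η) * X := mul_le_mul_of_nonneg_left hNsum (by positivity)
  have hrη : 1 ≤ r₀ / η := by
    rw [le_div_iff₀ hη]
    linarith
  set A : ℝ := (r₀ / η) * (5 * X + 1) with hA
  have hAtot : 5 * r₀ / η * X + 1 ≤ A := by
    rw [hA]
    have : 5 * r₀ / η * X = (r₀ / η) * (5 * X) := by ring
    rw [this]
    linarith
  have hcard : (S.card : ℝ) ≤ ∑ j, ∑ w ∈ s j, (|dv (f j) w| : ℝ) := by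
    have h1 : (S.card : ℝ) ≤ ((∑ j, (s j).card : ℕ) : ℝ) := by
      exact_mod_cast Finset.card_biUnion_le
    refine h1.trans ?_
    push_cast
    apply Finset.sum_le_sum
    intro j _
    have h2 : ((s j).card : ℝ) = ∑ _w ∈ s j, (1 : ℝ) := by simp
    rw [h2]
    apply Finset.sum_le_sum
    intro w hw
    have h3 := ((hs1 j w).mp hw).2
    have h4 : (1 : ℤ) ≤ |dv (f j) w| := Int.one_le_abs h3
    exact_mod_cast h4
  obtain ⟨r, hr1, hr2, hfar⟩ := b_exists_far S r₀ η hη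
  have hmain : ∀ j l (z : ℂ), ‖z‖ = r → dv (f j) z = 0 ∧
      ‖iteratedDeriv l (f j) z / f j z‖ ≤
        (l.factorial : ℝ) * 2 * (2 * (1030 * A ^ 2 / η)) ^ l := by
    intro j l z hz
    refine b_main (hf j) (r₀ := r₀) (R := R) (r := r) (X := X) (n := S.card) hη hηr hR1 hR2 hr2
      (hRS j) (s j) ?_ ?_ ?_ ?_ ?_ ?_ ?_ l hz
    · intro w h1 h2
      exact (hs1 j w).mpr ⟨h1, h2⟩
    · intro w hw
      exact ((hs1 j w).mp hw).1
    · intro w hw
      exact hfar w (Finset.mem_biUnion.mpr ⟨j, Finset.mem_univ _, hw⟩)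
    · refine (hK j R R' (by linarith) hRR'.le).trans ?_
      have h1 : characteristic (f j) ⊤ R' ≤ Φ :=
        Finset.single_le_sum (f := fun i => characteristic (f i) ⊤ R') (fun i _ => hT i)
          (Finset.mem_univ j)
      have h2 : C1 j ≤ ∑ j, C1 j := Finset.single_le_sum (fun i _ => hC1 i) (Finset.mem_univ j)
      have h3 : 0 ≤ ∑ j, C2 j := Finset.sum_nonneg fun i _ => hC2 i
      rw [hX, hC0]
      linarith
    · have h1 : ∑ w ∈ s j, (|dv (f j) w| : ℝ) ≤ ∑ j, ∑ w ∈ s j, (|dv (f j) w| : ℝ) :=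
        Finset.single_le_sum (f := fun j => ∑ w ∈ s j, (|dv (f j) w| : ℝ))
          (fun i _ => Finset.sum_nonneg fun w _ => abs_nonneg _) (Finset.mem_univ j)
      linarith
    · linarith
    · rw [hA]
      apply mul_le_mul_of_nonneg_left _ (by positivity)
      linarith
  refine ⟨r, hr1, hr2, fun j w hw => (hmain j 0 w hw).1, ?_⟩
  intro j l hl z hz
  rcases Nat.eq_zero_or_pos l with h0 | h0
  · subst h0
    have hfz : f j z ≠ 0 := (b_good (hf j) (hmain j 0 z hz).1).2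
    rw [iteratedDeriv_zero, div_self hfz, norm_one, pow_zero]
  · refine (hmain j l z hz).2.trans ?_
    have hB : 1030 * A ^ 2 / η ≤ 1030 * (11 + 5 * C0) ^ 2 * (1 + Φ) ^ 2 * (r₀ / η) ^ 2 / η := by
      apply div_le_div_of_nonneg_right _ hη.le
      have h1 : 5 * X + 1 ≤ (11 + 5 * C0) * (1 + Φ) := by
        rw [hX]
        have : 0 ≤ C0 * Φ := mul_nonneg hC0' hΦ0
        nlinarith
      have h2 : (5 * X + 1) ^ 2 ≤ ((11 + 5 * C0) * (1 + Φ)) ^ 2 :=
        pow_le_pow_left₀ (by linarith) h1 2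
      rw [hA]
      calc 1030 * ((r₀ / η) * (5 * X + 1)) ^ 2 = 1030 * (r₀ / η) ^ 2 * (5 * X + 1) ^ 2 := by ring
        _ ≤ 1030 * (r₀ / η) ^ 2 * ((11 + 5 * C0) * (1 + Φ)) ^ 2 :=
            mul_le_mul_of_nonneg_left h2 (by positivity)
        _ = _ := by ring
    set B : ℝ := 1030 * (11 + 5 * C0) ^ 2 * (1 + Φ) ^ 2 * (r₀ / η) ^ 2 / η with hBdef
    have hB0 : 0 ≤ B := by positivity
    have hA0 : 0 ≤ 1030 * A ^ 2 / η := by positivity
    have hL1 : (1 : ℝ) ≤ (L.factorial : ℝ) := by exact_mod_cast Nat.factorial_pos L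
    have hlL : (l.factorial : ℝ) ≤ (L.factorial : ℝ) := by
      exact_mod_cast Nat.factorial_le hl
    have h3 : (l.factorial : ℝ) * 2 ≤ ((L.factorial : ℝ) * 2) ^ l := by
      calc (l.factorial : ℝ) * 2 ≤ (L.factorial : ℝ) * 2 := by linarith
        _ = ((L.factorial : ℝ) * 2) ^ 1 := by ring
        _ ≤ ((L.factorial : ℝ) * 2) ^ l := pow_le_pow_right₀ (by linarith) h0
    calc (l.factorial : ℝ) * 2 * (2 * (1030 * A ^ 2 / η)) ^ l
        ≤ ((L.factorial : ℝ) * 2) ^ l * (2 * B) ^ l := by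
          apply mul_le_mul h3 _ (by positivity) (by positivity)
          exact pow_le_pow_left₀ (by positivity) (by linarith) l
      _ = ((L.factorial : ℝ) * 2 * (2 * B)) ^ l := (mul_pow _ _ _).symm
      _ = _ := by
          congr 1
          rw [hBdef]
          ring

end LangFC
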